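import Pool.Agent.Y89.TS.Stm2

/-!
TS-COMM: the double commutant of the even Clifford monomials.
-/

set_option autoImplicit false

open Matrix Finset

namespace Pool.Agent.Y165.TS

open Pool.Agent.Y89.TS

section
variable {N : Type} [Fintype N] [DecidableEq N] {n : ℕ} {Γ : Fin n → Matrix N N ℂ}

/-- the rules for the monomials -/
structure Rules (Γ : Fin n → Matrix N N ℂ) : Prop where
  emp : mono Γ ∅ = 1
  sing : ∀ i, mono Γ {i} = Γ i
  mul : ∀ s t : Finset (Fin n), mono Γ s * mono Γ t = mono Γ (symmDiff s t) ∨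
    mono Γ s * mono Γ t = -mono Γ (symmDiff s t)
  comm : ∀ s t : Finset (Fin n), mono Γ s * mono Γ t =
    ((-1 : ℂ) ^ (s.card * t.card + (s ∩ t).card)) • (mono Γ t * mono Γ s)

theorem rules (h : S_mono) (hΓ : Clf Γ) : Rules Γ := by
  obtain ⟨h1, h2, h3, h4⟩ := h N n Γ hΓ
  exact ⟨h1, h2, h3, h4⟩

theorem Rules.anti (R : Rules Γ) {s : Finset (Fin n)} (hs : Even s.card) {i : Fin n}
    (hi : i ∈ s) : Γ i * mono Γ s = -(mono Γ s * Γ i) := by
  have h1 := R.comm {i} s
  rw [R.sing] at h1
  have h2 : ((-1 : ℂ)) ^ (({i} : Finset (Fin n)).card * s.card + ({i} ∩ s).card) = -1 := by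
    rw [Finset.card_singleton, one_mul, Finset.singleton_inter_of_mem hi, Finset.card_singleton,
      pow_succ, hs.neg_one_pow]
    ring
  rw [h2, neg_smul, one_smul] at h1
  exact h1

theorem Rules.tr_zero (R : Rules Γ) (hΓ : Clf Γ) {s : Finset (Fin n)} (hs : Even s.card)
    (hne : s.Nonempty) : (mono Γ s).trace = 0 := by
  obtain ⟨i, hi⟩ := hne
  have h1 := R.anti hs hi
  have h3 : (mono Γ s).trace = -(mono Γ s).trace := by
    calc (mono Γ s).trace = (Γ i * (Γ i * mono Γ s)).trace := by
          rw [← mul_assoc, hΓ.sq, one_mul]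
      _ = (Γ i * -(mono Γ s * Γ i)).trace := by rw [h1]
      _ = -(Γ i * (mono Γ s * Γ i)).trace := by rw [mul_neg, trace_neg]
      _ = -((mono Γ s * Γ i) * Γ i).trace := by rw [Matrix.trace_mul_comm]
      _ = _ := by rw [mul_assoc, hΓ.sq, mul_one]
  linear_combination (1 / 2) * h3

theorem Rules.sq_or (R : Rules Γ) (s : Finset (Fin n)) :
    mono Γ s * mono Γ s = 1 ∨ mono Γ s * mono Γ s = -1 := by
  have h := R.mul s s
  rw [symmDiff_self] at h
  have h' : mono Γ (⊥ : Finset (Fin n)) = 1 := R.emp
  rw [h'] at h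
  exact h

/-- the inverse of a monomial -/
noncomputable def gi (Γ : Fin n → Matrix N N ℂ) (s : Finset (Fin n)) : Matrix N N ℂ :=
  open Classical in if mono Γ s * mono Γ s = 1 then mono Γ s else -mono Γ s

theorem gi_or (Γ : Fin n → Matrix N N ℂ) (s : Finset (Fin n)) :
    gi Γ s = mono Γ s ∨ gi Γ s = -mono Γ s := by
  unfold gi
  split_ifs
  · exact Or.inl rfl
  · exact Or.inr rfl

theorem Rules.mul_gi (R : Rules Γ) (s : Finset (Fin n)) : mono Γ s * gi Γ s = 1 := by
  unfold gi
  split_ifs with h
  · exact h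
  · rcases R.sq_or s with h1 | h1
    · exact absurd h1 h
    · rw [mul_neg, h1, neg_neg]

theorem Rules.gi_mul (R : Rules Γ) (s : Finset (Fin n)) : gi Γ s * mono Γ s = 1 := by
  unfold gi
  split_ifs with h
  · exact h
  · rcases R.sq_or s with h1 | h1
    · exact absurd h1 h
    · rw [neg_mul, h1, neg_neg]

theorem Rules.conj (R : Rules Γ) (t s : Finset (Fin n)) (M : Matrix N N ℂ) :
    mono Γ t * (mono Γ s * M * gi Γ s) * gi Γ t =
      mono Γ (symmDiff t s) * M * gi Γ (symmDiff t s) := by
  have h0 : (mono Γ t * mono Γ s) * (gi Γ s * gi Γ t) = 1 := by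
    calc _ = mono Γ t * (mono Γ s * gi Γ s) * gi Γ t := by noncomm_ring
      _ = _ := by rw [R.mul_gi, mul_one, R.mul_gi]
  have h1 : mono Γ t * (mono Γ s * M * gi Γ s) * gi Γ t =
      (mono Γ t * mono Γ s) * M * (gi Γ s * gi Γ t) := by noncomm_ring
  rw [h1]
  set u := symmDiff t s
  rcases R.mul t s with h | h
  · rw [h] at h0 ⊢
    have h2 : gi Γ s * gi Γ t = gi Γ u := by
      calc _ = (gi Γ u * mono Γ u) * (gi Γ s * gi Γ t) := by rw [R.gi_mul, one_mul]
        _ = gi Γ u * (mono Γ u * (gi Γ s * gi Γ t)) := by rw [mul_assoc]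
        _ = _ := by rw [h0, mul_one]
    rw [h2]
  · rw [h] at h0 ⊢
    have h2 : gi Γ s * gi Γ t = -gi Γ u := by
      calc _ = (gi Γ u * mono Γ u) * (gi Γ s * gi Γ t) := by rw [R.gi_mul, one_mul]
        _ = -(gi Γ u * (-mono Γ u * (gi Γ s * gi Γ t))) := by noncomm_ring
        _ = _ := by rw [h0, mul_one]
    rw [h2]
    noncomm_ring

/-- the average over the even monomials -/
noncomputable def EE (Γ : Fin n → Matrix N N ℂ) (M : Matrix N N ℂ) : Matrix N N ℂ :=
  ∑ s : Finset (Fin n) with Even s.card, mono Γ s * M * gi Γ s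

theorem even_symmDiff {s t : Finset (Fin n)} (hs : Even s.card) (ht : Even t.card) :
    Even (symmDiff s t).card := by
  have h1 : (symmDiff s t).card + 2 * (s ∩ t).card = s.card + t.card := by
    have e1 : (s \ t).card + (s ∩ t).card = s.card := Finset.card_sdiff_add_card_inter s t
    have e2 : (t \ s).card + (t ∩ s).card = t.card := Finset.card_sdiff_add_card_inter t s
    have e3 : (symmDiff s t).card = (s \ t).card + (t \ s).card := by
      rw [symmDiff_def, Finset.sup_eq_union, Finset.card_union_of_disjoint]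
      exact disjoint_sdiff_sdiff
    rw [Finset.inter_comm t s] at e2
    omega
  have h2 : Even (s.card + t.card) := hs.add ht
  rw [← h1] at h2
  have h3 : Even (2 * (s ∩ t).card) := even_two_mul _
  exact (Nat.even_add.1 h2).2 h3

theorem Rules.EE_conj (R : Rules Γ) {t : Finset (Fin n)} (ht : Even t.card) (M : Matrix N N ℂ) :
    mono Γ t * EE Γ M * gi Γ t = EE Γ M := by
  unfold EE
  rw [Finset.mul_sum, Finset.sum_mul]
  refine Finset.sum_bij' (fun s _ => symmDiff t s) (fun s _ => symmDiff t s) ?_ ?_ ?_ ?_ ?_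
  · intro s hs
    simp only [Finset.mem_filter, Finset.mem_univ, true_and] at hs ⊢
    exact even_symmDiff ht hs
  · intro s hs
    simp only [Finset.mem_filter, Finset.mem_univ, true_and] at hs ⊢
    exact even_symmDiff ht hs
  · intro s _
    exact symmDiff_symmDiff_cancel_left t s
  · intro s _
    exact symmDiff_symmDiff_cancel_left t s
  · intro s _
    exact R.conj t s M

theorem Rules.EE_comm (R : Rules Γ) {t : Finset (Fin n)} (ht : Even t.card) (M : Matrix N N ℂ) :
    EE Γ M * mono Γ t = mono Γ t * EE Γ M := by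
  have h := R.EE_conj ht M
  calc EE Γ M * mono Γ t = (mono Γ t * EE Γ M * gi Γ t) * mono Γ t := by rw [h]
    _ = mono Γ t * EE Γ M * (gi Γ t * mono Γ t) := by rw [mul_assoc]
    _ = _ := by rw [R.gi_mul, mul_one]

theorem Rules.EE_InD (R : Rules Γ) (M : Matrix N N ℂ) : InD Γ (EE Γ M) := by
  intro i j
  have h1 : Even (symmDiff ({i} : Finset (Fin n)) {j}).card := by
    by_cases hij : i = j
    · subst hij
      rw [symmDiff_self]
      exact ⟨0, rfl⟩
    · have : symmDiff ({i} : Finset (Fin n)) {j} = {i, j} := by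
        ext x
        simp only [Finset.mem_symmDiff, Finset.mem_singleton, Finset.mem_insert]
        constructor
        · rintro (⟨h, _⟩ | ⟨h, _⟩)
          · exact Or.inl h
          · exact Or.inr h
        · rintro (h | h)
          · exact Or.inl ⟨h, fun h' => hij (h.symm.trans h')⟩
          · exact Or.inr ⟨h, fun h' => hij (h'.symm.trans h)⟩
      rw [this, Finset.card_pair hij]
      exact even_two
  have h2 := R.EE_comm h1 M
  have h3 := R.mul {i} {j}
  rw [R.sing, R.sing] at h3
  rcases h3 with h3 | h3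
  · rw [h3, h2]
  · rw [h3, mul_neg, neg_mul, h2]

theorem Rules.key (R : Rules Γ) (hΓ : Clf Γ) {a : Matrix N N ℂ}
    (ha : ∀ d, InD Γ d → a * d = d * a) : (Fintype.card N : ℂ) • a =
      ∑ s : Finset (Fin n) with Even s.card, (gi Γ s * a).trace • mono Γ s := by
  have hcomm : ∀ M, a * EE Γ M = EE Γ M * a := fun M => ha _ (R.EE_InD M)
  have h1 : ∑ s : Finset (Fin n) with Even s.card, (gi Γ s).trace • (a * mono Γ s) =
      ∑ s : Finset (Fin n) with Even s.card, (gi Γ s * a).trace • mono Γ s := by
    ext x p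
    have h2 : ∀ q : N, (a * EE Γ (single p q 1)) x q = (EE Γ (single p q 1) * a) x q := by
      intro q
      rw [hcomm]
    have h3 : ∀ q : N, (a * EE Γ (single p q 1)) x q =
        ∑ s : Finset (Fin n) with Even s.card, (a * mono Γ s) x p * gi Γ s q q := by
      intro q
      unfold EE
      rw [Finset.mul_sum, Matrix.sum_apply]
      refine Finset.sum_congr rfl fun s _ => ?_
      have : a * (mono Γ s * single p q 1 * gi Γ s) = (a * mono Γ s) * single p q 1 * gi Γ s := by
        simp only [mul_assoc]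
      rw [this, Matrix.mul_apply]
      rw [Finset.sum_eq_single q]
      · rw [Matrix.mul_single_apply_same]
        ring
      · intro b _ hb
        rw [Matrix.mul_single_apply_of_ne _ _ _ _ _ hb, zero_mul]
      · intro hq
        exact absurd (Finset.mem_univ q) hq
    have h4 : ∀ q : N, (EE Γ (single p q 1) * a) x q =
        ∑ s : Finset (Fin n) with Even s.card, mono Γ s x p * (gi Γ s * a) q q := by
      intro q
      unfold EE
      rw [Finset.sum_mul, Matrix.sum_apply]
      refine Finset.sum_congr rfl fun s _ => ?_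
      have : (mono Γ s * single p q 1 * gi Γ s) * a = mono Γ s * single p q 1 * (gi Γ s * a) := by
        simp only [mul_assoc]
      rw [this, Matrix.mul_apply]
      rw [Finset.sum_eq_single q]
      · rw [Matrix.mul_single_apply_same]
        ring
      · intro b _ hb
        rw [Matrix.mul_single_apply_of_ne _ _ _ _ _ hb, zero_mul]
      · intro hq
        exact absurd (Finset.mem_univ q) hq
    have h5 : ∑ q : N, (a * EE Γ (single p q 1)) x q = ∑ q : N, (EE Γ (single p q 1) * a) x q :=
      Finset.sum_congr rfl fun q _ => h2 q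
    rw [Finset.sum_congr rfl fun q _ => h3 q, Finset.sum_congr rfl fun q _ => h4 q,
      Finset.sum_comm, Finset.sum_comm (s := univ)] at h5
    rw [Matrix.sum_apply, Matrix.sum_apply]
    have h6 : ∀ s : Finset (Fin n), ((gi Γ s).trace • (a * mono Γ s)) x p =
        ∑ q : N, (a * mono Γ s) x p * gi Γ s q q := by
      intro s
      rw [Matrix.smul_apply, smul_eq_mul, Matrix.trace, ← Finset.mul_sum, mul_comm]
      rfl
    have h7 : ∀ s : Finset (Fin n), ((gi Γ s * a).trace • mono Γ s) x p =
        ∑ q : N, mono Γ s x p * (gi Γ s * a) q q := by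
      intro s
      rw [Matrix.smul_apply, smul_eq_mul, Matrix.trace, ← Finset.mul_sum, mul_comm]
      rfl
    rw [Finset.sum_congr rfl fun s _ => h6 s, Finset.sum_congr rfl fun s _ => h7 s]
    exact h5
  rw [← h1, Finset.sum_eq_single ∅]
  · have e1 : gi Γ (∅ : Finset (Fin n)) = 1 := by
      have := R.mul_gi ∅
      rwa [R.emp, one_mul] at this
    rw [e1, R.emp, Matrix.trace_one, mul_one]
  · intro s hs hne
    simp only [Finset.mem_filter, Finset.mem_univ, true_and] at hs
    have h8 : (gi Γ s).trace = 0 := by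
      have h9 := R.tr_zero hΓ hs (Finset.nonempty_iff_ne_empty.2 hne)
      rcases gi_or Γ s with h | h
      · rw [h, h9]
      · rw [h, Matrix.trace_neg, h9, neg_zero]
    rw [h8, zero_smul]
  · intro hmem
    exact absurd (by simp) hmem

theorem t_comm (h : S_mono) : S_comm := by
  intro N _ _ n Γ hΓ a ha
  have R := rules h hΓ
  rcases isEmpty_or_nonempty N with hN | hN
  · have : a = 0 := Subsingleton.elim _ _
    rw [this]
    exact Submodule.zero_mem _
  have key := R.key hΓ ha
  have hc : (Fintype.card N : ℂ) ≠ 0 := by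
    exact_mod_cast Fintype.card_ne_zero
  have h10 : a = (Fintype.card N : ℂ)⁻¹ • ((Fintype.card N : ℂ) • a) := by
    rw [smul_smul, inv_mul_cancel₀ hc, one_smul]
  rw [h10, key]
  refine Submodule.smul_mem _ _ (Submodule.sum_mem _ fun s hs => ?_)
  simp only [Finset.mem_filter, Finset.mem_univ, true_and] at hs
  exact Submodule.smul_mem _ _ (Submodule.subset_span ⟨s, hs, rfl⟩)

end

end Pool.Agent.Y165.TS
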