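import Pool.Agent.Y165.TS.COMM

/-!
TS-THETA: operators normalising the spin representation preserve the tensor `∑ Γ i ⊗ Γ i`.
-/

set_option autoImplicit false

open Matrix Finset

namespace Pool.Agent.Y165.TS

open Pool.Agent.Y89.TS

section
variable {N : Type} [Fintype N] [DecidableEq N]

/-- an orthogonal change of basis preserves the canonical tensor -/
theorem orth {ι W : Type} [Fintype ι] [DecidableEq ι] [AddCommGroup W] [Module ℂ W]
    (E F : ι → Matrix N N ℂ) (o : Matrix ι ι ℂ) (hF : ∀ p, F p = ∑ q, o p q • E q) (c : ℂ)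
    (hc : c ≠ 0) (hE : ∀ p q, (E p * E q).trace = if p = q then c else 0)
    (hF' : ∀ p q, (F p * F q).trace = if p = q then c else 0)
    (B : Matrix N N ℂ →ₗ[ℂ] Matrix N N ℂ →ₗ[ℂ] W) :
    ∑ p, B (F p) (F p) = ∑ q, B (E q) (E q) := by
  have h1 : ∀ p q, (F p * F q).trace = c * ∑ r, o p r * o q r := by
    intro p q
    rw [hF p, hF q, Finset.sum_mul, Matrix.trace_sum, Finset.mul_sum]
    refine Finset.sum_congr rfl fun r _ => ?_
    rw [Finset.mul_sum, Matrix.trace_sum, Finset.sum_eq_single r]
    · rw [smul_mul_smul_comm, Matrix.trace_smul, hE, if_pos rfl, smul_eq_mul]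
      ring
    · intro s _ hs
      rw [smul_mul_smul_comm, Matrix.trace_smul, hE, if_neg hs.symm, smul_zero]
    · intro h
      exact absurd (Finset.mem_univ r) h
  have h2 : o * oᵀ = 1 := by
    ext p q
    rw [Matrix.mul_apply, Matrix.one_apply]
    have h3 := h1 p q
    rw [hF' p q] at h3
    have h4 : ∑ r, o p r * oᵀ r q = ∑ r, o p r * o q r := rfl
    rw [h4]
    split_ifs at h3 ⊢ with h
    · exact (mul_left_cancel₀ hc (by rw [mul_one]; exact h3)).symm
    · exact (mul_eq_zero.1 h3.symm).resolve_left hc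
  have h3 : oᵀ * o = 1 := mul_eq_one_comm.1 h2
  have h4 : ∀ q r, ∑ p, o p q * o p r = if q = r then 1 else 0 := by
    intro q r
    have h5 := congrFun (congrFun h3 q) r
    rw [Matrix.mul_apply, Matrix.one_apply] at h5
    exact h5
  calc ∑ p, B (F p) (F p) = ∑ p, ∑ q, ∑ r, (o p q * o p r) • B (E q) (E r) := by
        refine Finset.sum_congr rfl fun p _ => ?_
        rw [hF p]
        simp only [map_sum, map_smul, LinearMap.sum_apply, LinearMap.smul_apply, Finset.smul_sum,
          smul_smul]
        rw [Finset.sum_comm]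
        refine Finset.sum_congr rfl fun q _ => Finset.sum_congr rfl fun r _ => ?_
        congr 1
        ring
    _ = ∑ q, ∑ r, (∑ p, o p q * o p r) • B (E q) (E r) := by
        rw [Finset.sum_comm]
        refine Finset.sum_congr rfl fun q _ => ?_
        rw [Finset.sum_comm]
        refine Finset.sum_congr rfl fun r _ => ?_
        rw [Finset.sum_smul]
    _ = ∑ q, B (E q) (E q) := by
        refine Finset.sum_congr rfl fun q _ => ?_
        simp only [h4, ite_smul, one_smul, zero_smul, Finset.sum_ite_eq, Finset.mem_univ, if_true]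

theorem sum_lt {n : ℕ} (f : Fin n → ℂ) :
    2 * ∑ p : {p : Fin n × Fin n // p.1 < p.2}, f p.1.1 * f p.1.2 =
      (∑ a, f a) ^ 2 - ∑ a, f a ^ 2 := by
  have h0 : ∑ p : {p : Fin n × Fin n // p.1 < p.2}, f p.1.1 * f p.1.2 =
      ∑ a, ∑ b, if a < b then f a * f b else 0 := by
    rw [← Fintype.sum_prod_type' (f := fun a b : Fin n => if a < b then f a * f b else 0),
      ← Finset.sum_filter]
    exact (Finset.sum_subtype (Finset.univ.filter fun x : Fin n × Fin n => x.1 < x.2)
      (by simp) (fun x => f x.1 * f x.2)).symm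
  have h1 : (∑ a, f a) ^ 2 = ∑ a, ∑ b, f a * f b := by
    rw [sq, Finset.sum_mul_sum]
  have h2 : ∑ a, ∑ b, f a * f b = ∑ a, ∑ b, (if a < b then f a * f b else 0) +
      ∑ a, ∑ b, (if b < a then f a * f b else 0) + ∑ a, ∑ b, (if a = b then f a * f b else 0) := by
    rw [← Finset.sum_add_distrib, ← Finset.sum_add_distrib]
    refine Finset.sum_congr rfl fun a _ => ?_
    rw [← Finset.sum_add_distrib, ← Finset.sum_add_distrib]
    refine Finset.sum_congr rfl fun b _ => ?_
    rcases lt_trichotomy a b with h | h | h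
    · simp [h, h.not_gt, h.ne]
    · simp [h]
    · simp [h, h.not_gt, h.ne']
  have h3 : ∑ a, ∑ b, (if b < a then f a * f b else 0) =
      ∑ a, ∑ b, if a < b then f a * f b else 0 := by
    rw [Finset.sum_comm]
    refine Finset.sum_congr rfl fun a _ => Finset.sum_congr rfl fun b _ => ?_
    rw [mul_comm]
  have h4 : ∑ a, ∑ b, (if a = b then f a * f b else 0) = ∑ a, f a ^ 2 := by
    refine Finset.sum_congr rfl fun a _ => ?_
    rw [Finset.sum_ite_eq, if_pos (Finset.mem_univ a), sq]
  rw [h0, h1, h2, h3, h4]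
  ring

variable {n : ℕ} {Γ : Fin n → Matrix N N ℂ}

/-- the sign -/
def sg (s : Finset (Fin n)) (a : Fin n) : ℂ := if a ∈ s then -1 else 1

theorem sg_sq (s : Finset (Fin n)) (a : Fin n) : sg s a ^ 2 = 1 := by
  unfold sg
  split_ifs <;> norm_num

theorem sum_sg (s : Finset (Fin n)) : ∑ a, sg s a = (n : ℂ) - 2 * s.card := by
  have h1 : ∀ a, sg s a = 1 - 2 * (if a ∈ s then 1 else 0) := by
    intro a
    unfold sg
    split_ifs <;> norm_num
  simp only [h1]
  rw [Finset.sum_sub_distrib, ← Finset.mul_sum]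
  simp

theorem Rules.sgn (R : Rules Γ) {s : Finset (Fin n)} (hs : Even s.card) (a : Fin n) :
    Γ a * mono Γ s = sg s a • (mono Γ s * Γ a) := by
  have h1 := R.comm {a} s
  rw [R.sing] at h1
  rw [h1]
  congr 1
  unfold sg
  rw [Finset.card_singleton, one_mul, pow_add, hs.neg_one_pow, one_mul]
  split_ifs with h
  · rw [Finset.singleton_inter_of_mem h, Finset.card_singleton, pow_one]
  · rw [Finset.singleton_inter_of_notMem h, Finset.card_empty, pow_zero]

/-- the basis of the Lie algebra -/
def Eb (Γ : Fin n → Matrix N N ℂ) (p : {p : Fin n × Fin n // p.1 < p.2}) : Matrix N N ℂ :=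
  Γ p.1.1 * Γ p.1.2

theorem Eb_sq (hΓ : Clf Γ) (p : {p : Fin n × Fin n // p.1 < p.2}) : Eb Γ p * Eb Γ p = -1 := by
  unfold Eb
  calc Γ p.1.1 * Γ p.1.2 * (Γ p.1.1 * Γ p.1.2) = Γ p.1.1 * (Γ p.1.2 * Γ p.1.1) * Γ p.1.2 := by
        noncomm_ring
    _ = -((Γ p.1.1 * Γ p.1.1) * (Γ p.1.2 * Γ p.1.2)) := by
        rw [hΓ.anti _ _ p.2.ne']
        noncomm_ring
    _ = -1 := by rw [hΓ.sq, hΓ.sq, mul_one]

theorem Rules.mul_tr (R : Rules Γ) (hΓ : Clf Γ) {s t : Finset (Fin n)} (hs : Even s.card)
    (ht : Even t.card) (hne : s ≠ t) : (mono Γ s * mono Γ t).trace = 0 := by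
  have h1 : (mono Γ (symmDiff s t)).trace = 0 := by
    refine R.tr_zero hΓ (even_symmDiff hs ht) ?_
    rw [Finset.nonempty_iff_ne_empty]
    intro h
    exact hne (symmDiff_eq_bot.1 h)
  rcases R.mul s t with h | h
  · rw [h, h1]
  · rw [h, Matrix.trace_neg, h1, neg_zero]

theorem Rules.pair (R : Rules Γ) {i j : Fin n} (hij : i ≠ j) :
    Γ i * Γ j = mono Γ {i, j} ∨ Γ i * Γ j = -mono Γ {i, j} := by
  have : symmDiff ({i} : Finset (Fin n)) {j} = {i, j} := by
    ext x
    simp only [Finset.mem_symmDiff, Finset.mem_singleton, Finset.mem_insert]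
    constructor
    · rintro (⟨h, _⟩ | ⟨h, _⟩)
      · exact Or.inl h
      · exact Or.inr h
    · rintro (h | h)
      · exact Or.inl ⟨h, fun h' => hij (h.symm.trans h')⟩
      · exact Or.inr ⟨h, fun h' => hij (h'.symm.trans h)⟩
  have h3 := R.mul {i} {j}
  rw [R.sing, R.sing, this] at h3
  exact h3

theorem Rules.Eb_tr (R : Rules Γ) (hΓ : Clf Γ) (p q : {p : Fin n × Fin n // p.1 < p.2}) :
    (Eb Γ p * Eb Γ q).trace = if p = q then -(Fintype.card N : ℂ) else 0 := by
  split_ifs with h
  · subst h
    rw [Eb_sq hΓ, Matrix.trace_neg, Matrix.trace_one]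
  · have hne : ({p.1.1, p.1.2} : Finset (Fin n)) ≠ {q.1.1, q.1.2} := by
      intro he
      apply h
      have hp := p.2
      have hq := q.2
      have e1 : p.1.1 ∈ ({q.1.1, q.1.2} : Finset (Fin n)) := by rw [← he]; simp
      have e2 : p.1.2 ∈ ({q.1.1, q.1.2} : Finset (Fin n)) := by rw [← he]; simp
      simp only [Finset.mem_insert, Finset.mem_singleton] at e1 e2
      apply Subtype.ext
      apply Prod.ext
      · rcases e1 with e1 | e1
        · exact e1
        · exfalso
          rcases e2 with e2 | e2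
          · rw [e1, e2] at hp
            exact absurd hp hq.not_gt
          · rw [e1, e2] at hp
            exact lt_irrefl _ hp
      · rcases e2 with e2 | e2
        · exfalso
          rcases e1 with e1 | e1
          · rw [e1, e2] at hp
            exact lt_irrefl _ hp
          · rw [e1, e2] at hp
            exact absurd hp hq.not_gt
        · exact e2
    have hz : (mono Γ {p.1.1, p.1.2} * mono Γ {q.1.1, q.1.2}).trace = 0 := by
      refine R.mul_tr hΓ ?_ ?_ hne
      · rw [Finset.card_pair p.2.ne]; exact even_two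
      · rw [Finset.card_pair q.2.ne]; exact even_two
    unfold Eb
    rcases R.pair p.2.ne with h1 | h1 <;> rcases R.pair q.2.ne with h2 | h2 <;> rw [h1, h2] <;>
      simp [hz]

/-- the Casimir operator -/
def TT (Γ : Fin n → Matrix N N ℂ) (X : Matrix N N ℂ) : Matrix N N ℂ := ∑ p, Eb Γ p * X * Eb Γ p

/-- its eigenvalues -/
noncomputable def lam (s : Finset (Fin n)) : ℂ := -(((n : ℂ) - 2 * s.card) ^ 2 - n) / 2

theorem Rules.TT_mono (R : Rules Γ) (hΓ : Clf Γ) {s : Finset (Fin n)} (hs : Even s.card) :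
    TT Γ (mono Γ s) = lam s • mono Γ s := by
  unfold TT
  have h1 : ∀ p : {p : Fin n × Fin n // p.1 < p.2}, Eb Γ p * mono Γ s * Eb Γ p =
      (-(sg s p.1.1 * sg s p.1.2)) • mono Γ s := by
    intro p
    have h2 : Eb Γ p * mono Γ s = (sg s p.1.1 * sg s p.1.2) • (mono Γ s * Eb Γ p) := by
      unfold Eb
      calc Γ p.1.1 * Γ p.1.2 * mono Γ s = Γ p.1.1 * (Γ p.1.2 * mono Γ s) := by rw [mul_assoc]
        _ = sg s p.1.2 • ((Γ p.1.1 * mono Γ s) * Γ p.1.2) := by
            rw [R.sgn hs, mul_smul_comm, mul_assoc]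
        _ = _ := by
            rw [R.sgn hs, smul_mul_assoc, smul_smul, mul_assoc, mul_comm (sg s p.1.2)]
    rw [h2, smul_mul_assoc, mul_assoc, Eb_sq hΓ, mul_neg, mul_one, smul_neg, neg_smul]
  rw [Finset.sum_congr rfl fun p _ => h1 p, ← Finset.sum_smul]
  congr 1
  have h3 := sum_lt (sg s)
  rw [sum_sg] at h3
  have h4 : ∑ a, sg s a ^ 2 = (n : ℂ) := by
    simp only [sg_sq]
    simp
  rw [h4] at h3
  rw [Finset.sum_neg_distrib]
  unfold lam
  linear_combination (-1 / 2) * h3

theorem lam_eq {s t : Finset (Fin n)} (hs : Even s.card) (ht : t.card + 1 = n)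
    (h : lam s = lam t) : s.card + 1 = n := by
  unfold lam at h
  have h1 : ((n : ℂ) - 2 * s.card) ^ 2 = ((n : ℂ) - 2 * t.card) ^ 2 := by
    linear_combination (-2) * h
  have h2 : (t.card : ℂ) = n - 1 := by
    have : ((t.card + 1 : ℕ) : ℂ) = n := by rw [ht]
    push_cast at this
    linear_combination this
  rw [h2] at h1
  have h3 : ((s.card : ℂ) - 1) * ((s.card : ℂ) + 1 - n) = 0 := by
    linear_combination (1 / 4) * h1
  rcases mul_eq_zero.1 h3 with h4 | h4
  · exfalso
    have h5 : s.card = 1 := by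
      have : (s.card : ℂ) = (1 : ℕ) := by push_cast; linear_combination h4
      exact_mod_cast this
    rw [h5] at hs
    exact absurd hs (by decide)
  · have : ((s.card + 1 : ℕ) : ℂ) = (n : ℕ) := by push_cast; linear_combination h4
    exact_mod_cast this

theorem Rules.mono_InD (R : Rules Γ) {d : Matrix N N ℂ} (hd : InD Γ d) (k : ℕ) :
    ∀ s : Finset (Fin n), s.card = 2 * k → mono Γ s * d = d * mono Γ s := by
  induction k with
  | zero =>
    intro s hs
    have : s = ∅ := by
      rw [← Finset.card_eq_zero]; omega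
    rw [this, R.emp, one_mul, mul_one]
  | succ k ih =>
    intro s hs
    obtain ⟨i, hi, j, hj, hij⟩ := Finset.one_lt_card.1 (show 1 < s.card by omega)
    have hsub : ({i, j} : Finset (Fin n)) ⊆ s := by
      intro x hx
      simp only [Finset.mem_insert, Finset.mem_singleton] at hx
      rcases hx with rfl | rfl
      · exact hi
      · exact hj
    have hcard : (s \ {i, j}).card = 2 * k := by
      rw [Finset.card_sdiff_of_subset hsub, Finset.card_pair hij]
      omega
    have hsd : symmDiff ({i, j} : Finset (Fin n)) (s \ {i, j}) = s := by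
      ext x
      simp only [Finset.mem_symmDiff, Finset.mem_sdiff]
      constructor
      · rintro (⟨h1, _⟩ | ⟨h1, _⟩)
        · exact hsub h1
        · exact h1.1
      · intro hx
        by_cases h1 : x ∈ ({i, j} : Finset (Fin n))
        · exact Or.inl ⟨h1, fun h2 => h2.2 h1⟩
        · exact Or.inr ⟨⟨hx, h1⟩, h1⟩
    have h1 := R.mul {i, j} (s \ {i, j})
    rw [hsd] at h1
    have h2 : mono Γ {i, j} * d = d * mono Γ {i, j} := by
      have h3 := hd i j
      rcases R.pair (Γ := Γ) hij with h4 | h4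
      · rw [h4] at h3
        exact h3.symm
      · rw [h4, mul_neg, neg_mul, neg_inj] at h3
        exact h3.symm
    have h5 := ih _ hcard
    have h6 : (mono Γ {i, j} * mono Γ (s \ {i, j})) * d =
        d * (mono Γ {i, j} * mono Γ (s \ {i, j})) := by
      rw [mul_assoc, h5, ← mul_assoc, h2, mul_assoc]
    rcases h1 with h1 | h1
    · rwa [h1] at h6
    · rw [h1, neg_mul, mul_neg, neg_inj] at h6
      exact h6

theorem TT_tr (A B : Matrix N N ℂ) : (A * TT Γ B).trace = (TT Γ A * B).trace := by
  unfold TT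
  rw [Finset.mul_sum, Finset.sum_mul, Matrix.trace_sum, Matrix.trace_sum]
  refine Finset.sum_congr rfl fun p _ => ?_
  rw [← mul_assoc, Matrix.trace_mul_comm]
  congr 1
  noncomm_ring

theorem TT_neg (A : Matrix N N ℂ) : TT Γ (-A) = -TT Γ A := by
  unfold TT
  rw [← Finset.sum_neg_distrib]
  refine Finset.sum_congr rfl fun p _ => ?_
  noncomm_ring

theorem TT_smul (c : ℂ) (A : Matrix N N ℂ) : TT Γ (c • A) = c • TT Γ A := by
  unfold TT
  rw [Finset.smul_sum]
  refine Finset.sum_congr rfl fun p _ => ?_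
  rw [mul_smul_comm, smul_mul_assoc]

end

theorem t_theta (h : S_mono) : S_theta := by
  intro N _ _ n Γ hΓ hn g g' hgg hgg' hgd hgE M
  have R := rules h hΓ
  rcases isEmpty_or_nonempty N with hN | hN
  · exact Subsingleton.elim _ _
  have hc : (Fintype.card N : ℂ) ≠ 0 := by
    exact_mod_cast Fintype.card_ne_zero
  -- g' commutes with the commutant
  have hgd' : ∀ d, InD Γ d → g' * d = d * g' := by
    intro d hd
    calc g' * d = g' * d * (g * g') := by rw [hgg, mul_one]
      _ = g' * (d * g) * g' := by noncomm_ring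
      _ = g' * (g * d) * g' := by rw [hgd d hd]
      _ = (g' * g) * d * g' := by noncomm_ring
      _ = d * g' := by rw [hgg', one_mul]
  -- even monomials commute with the commutant
  have hmd : ∀ s : Finset (Fin n), Even s.card → ∀ d, InD Γ d → mono Γ s * d = d * mono Γ s := by
    intro s hs d hd
    obtain ⟨k, hk⟩ := hs
    exact R.mono_InD hd k s (by omega)
  -- omega
  have hω : ∀ t : Finset (Fin n), mono Γ univ * mono Γ t = mono Γ t * mono Γ univ := by
    intro t
    rw [R.comm univ t]
    have : Even ((univ : Finset (Fin n)).card * t.card + (univ ∩ t).card) := by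
      rw [Finset.univ_inter, Finset.card_univ, Fintype.card_fin]
      have : n * t.card + t.card = (n + 1) * t.card := by ring
      rw [this]
      exact (hn.add_one).mul_right _
    rw [this.neg_one_pow, one_smul]
  have hωg : mono Γ univ * g = g * mono Γ univ := by
    have h1 := R.key hΓ hgd
    have h2 : mono Γ univ * ((Fintype.card N : ℂ) • g) = ((Fintype.card N : ℂ) • g) * mono Γ univ := by
      rw [h1, Finset.mul_sum, Finset.sum_mul]
      refine Finset.sum_congr rfl fun s _ => ?_
      rw [mul_smul_comm, smul_mul_assoc, hω]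
    rw [mul_smul_comm, smul_mul_assoc] at h2
    exact smul_right_injective _ hc h2
  -- conjugation preserves the Lie algebra
  have hsp : ∀ p, g * Eb Γ p * g' ∈ Submodule.span ℂ (Set.range (Eb Γ)) := by
    intro p
    have h1 := hgE p.1.1 p.1.2 p.2.ne
    refine (Submodule.span_le.2 ?_) h1
    rintro z ⟨i, j, hij, rfl⟩
    rcases lt_or_gt_of_ne hij with hlt | hlt
    · exact Submodule.subset_span ⟨⟨(i, j), hlt⟩, rfl⟩
    · rw [hΓ.anti i j hij]
      exact Submodule.neg_mem _ (Submodule.subset_span ⟨⟨(j, i), hlt⟩, rfl⟩)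
  have hcoef : ∀ p, ∃ c : {p : Fin n × Fin n // p.1 < p.2} → ℂ,
      ∑ q, c q • Eb Γ q = g * Eb Γ p * g' := fun p =>
    (Submodule.mem_span_range_iff_exists_fun ℂ).1 (hsp p)
  choose o ho using hcoef
  have hT : ∀ X, TT Γ (g * X * g') = g * TT Γ X * g' := by
    intro X
    let B : Matrix N N ℂ →ₗ[ℂ] Matrix N N ℂ →ₗ[ℂ] Matrix N N ℂ :=
      LinearMap.mk₂ ℂ (fun A C => A * (g * X * g') * C)
        (fun A A' C => by noncomm_ring) (fun c A C => by simp only [smul_mul_assoc])
        (fun A C C' => by noncomm_ring) (fun c A C => by simp only [mul_smul_comm])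
    have h1 := orth (Eb Γ) (fun p => g * Eb Γ p * g') (fun p q => o p q)
      (fun p => (ho p).symm) (-(Fintype.card N : ℂ)) (neg_ne_zero.2 hc) (R.Eb_tr hΓ)
      (fun p q => by
        have e : g * Eb Γ p * g' * (g * Eb Γ q * g') = g * (Eb Γ p * Eb Γ q * g') := by
          calc _ = g * Eb Γ p * (g' * g) * (Eb Γ q * g') := by noncomm_ring
            _ = _ := by rw [hgg']; noncomm_ring
        rw [e, Matrix.trace_mul_comm, mul_assoc, hgg', mul_one]
        exact R.Eb_tr hΓ p q) B
    have h2 : ∑ q, B (Eb Γ q) (Eb Γ q) = TT Γ (g * X * g') := rfl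
    rw [← h2, ← h1]
    unfold TT
    rw [Finset.mul_sum, Finset.sum_mul]
    refine Finset.sum_congr rfl fun p _ => ?_
    show g * Eb Γ p * g' * (g * X * g') * (g * Eb Γ p * g') = _
    calc _ = g * Eb Γ p * (g' * g) * X * (g' * g) * Eb Γ p * g' := by noncomm_ring
      _ = _ := by rw [hgg']; noncomm_ring
  -- the complement of a point
  have hcompl : ∀ i : Fin n, (({i}ᶜ : Finset (Fin n)).card + 1 = n) := by
    intro i
    rw [Finset.card_compl, Finset.card_singleton, Fintype.card_fin]
    have := i.pos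
    omega
  have heven : ∀ i : Fin n, Even ({i}ᶜ : Finset (Fin n)).card := by
    intro i
    have := hcompl i
    obtain ⟨k, hk⟩ := hn
    exact ⟨k, by omega⟩
  have hωΓ : ∀ i, mono Γ univ * Γ i = mono Γ {i}ᶜ ∨ mono Γ univ * Γ i = -mono Γ {i}ᶜ := by
    intro i
    have h1 := R.mul univ {i}
    rw [R.sing] at h1
    have : symmDiff (univ : Finset (Fin n)) {i} = {i}ᶜ := by
      ext x
      simp [Finset.mem_symmDiff]
    rwa [this] at h1
  -- the images of the complements
  have hY : ∀ i, g * mono Γ {i}ᶜ * g' ∈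
      Submodule.span ℂ (Set.range fun a => mono Γ univ * Γ a) := by
    intro i
    set Y := g * mono Γ {i}ᶜ * g' with hYdef
    have hYd : ∀ d, InD Γ d → Y * d = d * Y := by
      intro d hd
      rw [hYdef]
      calc g * mono Γ {i}ᶜ * g' * d = g * mono Γ {i}ᶜ * (g' * d) := by noncomm_ring
        _ = g * (mono Γ {i}ᶜ * d) * g' := by rw [hgd' d hd]; noncomm_ring
        _ = (g * d) * mono Γ {i}ᶜ * g' := by rw [hmd _ (heven i) d hd]; noncomm_ring
        _ = _ := by rw [hgd d hd]; noncomm_ring
    have hTY : TT Γ Y = lam ({i}ᶜ : Finset (Fin n)) • Y := by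
      rw [hYdef, hT, R.TT_mono hΓ (heven i), mul_smul_comm, smul_mul_assoc]
    have h1 := R.key hΓ hYd
    have h2 : Y = (Fintype.card N : ℂ)⁻¹ • ((Fintype.card N : ℂ) • Y) := by
      rw [smul_smul, inv_mul_cancel₀ hc, one_smul]
    rw [h2, h1]
    refine Submodule.smul_mem _ _ (Submodule.sum_mem _ fun s hs => ?_)
    simp only [Finset.mem_filter, Finset.mem_univ, true_and] at hs
    by_cases h3 : s.card + 1 = n
    · refine Submodule.smul_mem _ _ ?_
      have h4 : sᶜ.card = 1 := by
        rw [Finset.card_compl, Fintype.card_fin]; omega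
      obtain ⟨a, ha⟩ := Finset.card_eq_one.1 h4
      have h5 : s = {a}ᶜ := by rw [← ha, compl_compl]
      rw [h5]
      rcases hωΓ a with h6 | h6
      · rw [← h6]
        exact Submodule.subset_span ⟨a, rfl⟩
      · have h7 : mono Γ {a}ᶜ = -(mono Γ univ * Γ a) := by rw [h6, neg_neg]
        rw [h7]
        exact Submodule.neg_mem _ (Submodule.subset_span ⟨a, rfl⟩)
    · have h4 : (gi Γ s * Y).trace = 0 := by
        have h5 : TT Γ (gi Γ s) = lam s • gi Γ s := by
          rcases gi_or Γ s with h6 | h6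
          · rw [h6, R.TT_mono hΓ hs]
          · rw [h6, TT_neg, R.TT_mono hΓ hs, smul_neg]
        have h6 := TT_tr (Γ := Γ) (gi Γ s) Y
        rw [h5, hTY, mul_smul_comm, smul_mul_assoc, Matrix.trace_smul, Matrix.trace_smul,
          smul_eq_mul, smul_eq_mul] at h6
        have h7 : (lam ({i}ᶜ : Finset (Fin n)) - lam s) * (gi Γ s * Y).trace = 0 := by
          linear_combination h6
        rcases mul_eq_zero.1 h7 with h8 | h8
        · exact absurd (lam_eq hs (hcompl i) (sub_eq_zero.1 h8).symm) h3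
        · exact h8
      rw [h4, zero_smul]
      exact Submodule.zero_mem _
  -- the images of the generators
  have hG : ∀ i, g * Γ i * g' ∈ Submodule.span ℂ (Set.range Γ) := by
    intro i
    have h1 : mono Γ univ * (g * Γ i * g') ∈
        Submodule.span ℂ (Set.range fun a => mono Γ univ * Γ a) := by
      have h2 : mono Γ univ * (g * Γ i * g') = g * (mono Γ univ * Γ i) * g' := by
        calc _ = (mono Γ univ * g) * Γ i * g' := by noncomm_ring
          _ = _ := by rw [hωg]; noncomm_ring
      rw [h2]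
      rcases hωΓ i with h3 | h3
      · rw [h3]
        exact hY i
      · rw [h3, mul_neg, neg_mul]
        exact Submodule.neg_mem _ (hY i)
    have h4 : ∀ z ∈ Submodule.span ℂ (Set.range fun a => mono Γ univ * Γ a),
        gi Γ univ * z ∈ Submodule.span ℂ (Set.range Γ) := by
      intro z hz
      induction hz using Submodule.span_induction with
      | mem x hx =>
        obtain ⟨a, rfl⟩ := hx
        have : gi Γ univ * (mono Γ univ * Γ a) = Γ a := by
          rw [← mul_assoc, R.gi_mul, one_mul]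
        show gi Γ univ * (mono Γ univ * Γ a) ∈ _
        rw [this]
        exact Submodule.subset_span ⟨a, rfl⟩
      | zero => rw [mul_zero]; exact Submodule.zero_mem _
      | add x y _ _ hx hy => rw [mul_add]; exact Submodule.add_mem _ hx hy
      | smul c x _ hx => rw [mul_smul_comm]; exact Submodule.smul_mem _ _ hx
    have h5 := h4 _ h1
    rwa [← mul_assoc, R.gi_mul, one_mul] at h5
  have hcoef2 : ∀ i, ∃ c : Fin n → ℂ, ∑ q, c q • Γ q = g * Γ i * g' := fun i =>
    (Submodule.mem_span_range_iff_exists_fun ℂ).1 (hG i)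
  choose o2 ho2 using hcoef2
  have hΓtr : ∀ i j, (Γ i * Γ j).trace = if i = j then (Fintype.card N : ℂ) else 0 := by
    intro i j
    split_ifs with hij
    · subst hij
      rw [hΓ.sq, Matrix.trace_one]
    · have h1 : (Γ i * Γ j).trace = -(Γ i * Γ j).trace := by
        conv_lhs => rw [hΓ.anti i j hij, Matrix.trace_neg, Matrix.trace_mul_comm]
      linear_combination (1 / 2) * h1
  let B : Matrix N N ℂ →ₗ[ℂ] Matrix N N ℂ →ₗ[ℂ] Matrix N N ℂ :=
    LinearMap.mk₂ ℂ (fun A C => (A * M).trace • C)
      (fun A A' C => by rw [add_mul, Matrix.trace_add, add_smul])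
      (fun c A C => by rw [smul_mul_assoc, Matrix.trace_smul, smul_assoc])
      (fun A C C' => by rw [smul_add]) (fun c A C => by rw [smul_comm])
  have h1 := orth Γ (fun p => g * Γ p * g') (fun p q => o2 p q)
    (fun p => (ho2 p).symm) (Fintype.card N : ℂ) hc hΓtr
    (fun p q => by
      have e : g * Γ p * g' * (g * Γ q * g') = g * (Γ p * Γ q * g') := by
        calc _ = g * Γ p * (g' * g) * (Γ q * g') := by noncomm_ring
          _ = _ := by rw [hgg']; noncomm_ring
      rw [e, Matrix.trace_mul_comm, mul_assoc, hgg', mul_one]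
      exact hΓtr p q) B
  have h2 : ∑ i, (Γ i * M).trace • Γ i = ∑ q, B (Γ q) (Γ q) := rfl
  rw [h2, ← h1]
  refine Finset.sum_congr rfl fun i _ => ?_
  show (Γ i * (g' * M * g)).trace • (g * Γ i * g') = (g * Γ i * g' * M).trace • (g * Γ i * g')
  congr 1
  have e : Γ i * (g' * M * g) = (Γ i * g' * M) * g := by noncomm_ring
  rw [e, Matrix.trace_mul_comm]
  congr 1
  noncomm_ring

end Pool.Agent.Y165.TS
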